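import Pool.Agent.N290.RI.Stm2

/-!
# Project RI, part E1: slowly varying majorants

(helper717, for helper290)
-/

set_option autoImplicit false

open MeasureTheory Set
open scoped ENNReal

namespace Pool.Agent.N717.RI

/-- `2^{-1/8}` -/
noncomputable def ll : ℝ := (2 : ℝ) ^ (-(1 / 8) : ℝ)

lemma ll_pos : 0 < ll := Real.rpow_pos_of_pos (by norm_num) _

lemma ll_lt : ll < 1 := Real.rpow_lt_one_of_one_lt_of_neg (by norm_num) (by norm_num)

lemma ll_inv : ll⁻¹ = (2 : ℝ) ^ (1 / 8 : ℝ) := by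
  unfold ll
  rw [← Real.rpow_neg (by norm_num), neg_neg]

lemma ll_inv_le : ll⁻¹ ≤ 2 := by
  rw [ll_inv]
  calc (2 : ℝ) ^ (1 / 8 : ℝ) ≤ (2 : ℝ) ^ (1 : ℝ) :=
        Real.rpow_le_rpow_of_exponent_le (by norm_num) (by norm_num)
    _ = 2 := Real.rpow_one 2

/-- the regularisation of `u` -/
noncomputable def reg (u : ℝ → ℝ) (t : ℝ) : ℝ := ⨆ j : ℕ, ll ^ j * u (2 ^ j * t)

section

variable {u v : ℝ → ℝ}

lemma bdd (hu1 : ∀ t, 0 ≤ u t ∧ u t ≤ 1) (t : ℝ) :
    BddAbove (range fun j : ℕ => ll ^ j * u (2 ^ j * t)) := by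
  refine ⟨1, ?_⟩
  rintro _ ⟨j, rfl⟩
  exact mul_le_one₀ (pow_le_one₀ ll_pos.le ll_lt.le) (hu1 _).1 (hu1 _).2

lemma le_reg (hu1 : ∀ t, 0 ≤ u t ∧ u t ≤ 1) (t : ℝ) (j : ℕ) :
    ll ^ j * u (2 ^ j * t) ≤ reg u t := le_ciSup (bdd hu1 t) j

lemma reg_le (t : ℝ) {c : ℝ} (h : ∀ j : ℕ, ll ^ j * u (2 ^ j * t) ≤ c) : reg u t ≤ c :=
  ciSup_le h

lemma self_le (hu1 : ∀ t, 0 ≤ u t ∧ u t ≤ 1) (t : ℝ) : u t ≤ reg u t := by
  have h := le_reg hu1 t 0
  rwa [pow_zero, pow_zero, one_mul, one_mul] at h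

lemma reg_nonneg (hu1 : ∀ t, 0 ≤ u t ∧ u t ≤ 1) (t : ℝ) : 0 ≤ reg u t :=
  (hu1 t).1.trans (self_le hu1 t)

lemma reg_le_one (hu1 : ∀ t, 0 ≤ u t ∧ u t ≤ 1) (t : ℝ) : reg u t ≤ 1 :=
  reg_le t fun _ => mul_le_one₀ (pow_le_one₀ ll_pos.le ll_lt.le) (hu1 _).1 (hu1 _).2

lemma reg_mono (hu : Monotone u) (hu1 : ∀ t, 0 ≤ u t ∧ u t ≤ 1) : Monotone (reg u) := by
  intro s t hst
  refine reg_le s fun j => le_trans ?_ (le_reg hu1 t j)
  exact mul_le_mul_of_nonneg_left (hu (mul_le_mul_of_nonneg_left hst (by positivity)))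
    (pow_pos ll_pos j).le

lemma reg_two (hu1 : ∀ t, 0 ≤ u t ∧ u t ≤ 1) (t : ℝ) (m : ℕ) :
    reg u (2 ^ m * t) ≤ ll⁻¹ ^ m * reg u t := by
  refine reg_le _ fun j => ?_
  have h1 := le_reg hu1 t (j + m)
  have h2 : ll⁻¹ ^ m * (ll ^ (j + m) * u (2 ^ (j + m) * t)) = ll ^ j * u (2 ^ j * (2 ^ m * t)) := by
    rw [pow_add ll, pow_add (2 : ℝ), mul_assoc ((2 : ℝ) ^ j), inv_pow]
    have := (pow_pos ll_pos m).ne'
    field_simp
  rw [← h2]
  exact mul_le_mul_of_nonneg_left h1 (pow_nonneg (inv_nonneg.mpr ll_pos.le) m)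

lemma reg_slow (hu : Monotone u) (hu1 : ∀ t, 0 ≤ u t ∧ u t ≤ 1) {s t : ℝ} (ht : 0 < t)
    (hts : t ≤ s) : reg u s ≤ 2 * (s / t) ^ (1 / 8 : ℝ) * reg u t := by
  have h1 : 1 ≤ s / t := (one_le_div ht).mpr hts
  obtain ⟨n, h2, h3⟩ := exists_nat_pow_near h1 (by norm_num : (1 : ℝ) < 2)
  have h4 : s ≤ 2 ^ (n + 1) * t := by
    have := (div_lt_iff₀ ht).mp h3
    exact this.le
  refine (reg_mono hu hu1 h4).trans ((reg_two hu1 t (n + 1)).trans ?_)
  refine mul_le_mul_of_nonneg_right ?_ (reg_nonneg hu1 t)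
  rw [pow_succ, mul_comm]
  have h5 : ll⁻¹ ^ n ≤ (s / t) ^ (1 / 8 : ℝ) := by
    rw [ll_inv, ← Real.rpow_natCast, ← Real.rpow_mul (by norm_num), mul_comm,
      Real.rpow_mul (by norm_num), Real.rpow_natCast]
    exact Real.rpow_le_rpow (by positivity) h2 (by norm_num)
  exact mul_le_mul ll_inv_le h5 (pow_nonneg (inv_nonneg.mpr ll_pos.le) n) (by norm_num)

lemma summ (hu1 : ∀ t, 0 ≤ u t ∧ u t ≤ 1) (hv1 : ∀ t, 0 ≤ v t ∧ v t ≤ 1) (t : ℝ) :
    Summable fun m : ℕ => ll ^ m * (u (2 ^ m * t) * v (2 ^ m * t)) := by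
  refine Summable.of_nonneg_of_le (fun m => ?_) (fun m => ?_)
    (summable_geometric_of_lt_one ll_pos.le ll_lt)
  · exact mul_nonneg (pow_pos ll_pos m).le (mul_nonneg (hu1 _).1 (hv1 _).1)
  · exact mul_le_of_le_one_right (pow_pos ll_pos m).le (mul_le_one₀ (hu1 _).2 (hv1 _).1 (hv1 _).2)

lemma reg_mul_reg (hu : Monotone u) (hu1 : ∀ t, 0 ≤ u t ∧ u t ≤ 1) (hv : Monotone v)
    (hv1 : ∀ t, 0 ≤ v t ∧ v t ≤ 1) {t : ℝ} (ht : 0 < t) :
    reg u t * reg v t ≤ ∑' m : ℕ, ll ^ m * (u (2 ^ m * t) * v (2 ^ m * t)) := by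
  have key : ∀ i j : ℕ, (ll ^ i * u (2 ^ i * t)) * (ll ^ j * v (2 ^ j * t)) ≤
      ∑' m : ℕ, ll ^ m * (u (2 ^ m * t) * v (2 ^ m * t)) := by
    intro i j
    have h1 : (ll ^ i * u (2 ^ i * t)) * (ll ^ j * v (2 ^ j * t)) ≤
        ll ^ (max i j) * (u (2 ^ (max i j) * t) * v (2 ^ (max i j) * t)) := by
      have e : (ll ^ i * u (2 ^ i * t)) * (ll ^ j * v (2 ^ j * t)) =
          ll ^ (i + j) * (u (2 ^ i * t) * v (2 ^ j * t)) := by
        rw [pow_add]
        ring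
      rw [e]
      have h2 : ll ^ (i + j) ≤ ll ^ (max i j) :=
        pow_le_pow_of_le_one ll_pos.le ll_lt.le (by omega)
      have h3 : u (2 ^ i * t) ≤ u (2 ^ (max i j) * t) :=
        hu (mul_le_mul_of_nonneg_right
          (pow_le_pow_right₀ (by norm_num) (le_max_left i j)) ht.le)
      have h4 : v (2 ^ j * t) ≤ v (2 ^ (max i j) * t) :=
        hv (mul_le_mul_of_nonneg_right
          (pow_le_pow_right₀ (by norm_num) (le_max_right i j)) ht.le)
      exact mul_le_mul h2 (mul_le_mul h3 h4 (hv1 _).1 (hu1 _).1)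
        (mul_nonneg (hu1 _).1 (hv1 _).1) (pow_pos ll_pos _).le
    refine h1.trans ?_
    exact (summ hu1 hv1 t).le_tsum (max i j) fun m _ =>
      mul_nonneg (pow_pos ll_pos m).le (mul_nonneg (hu1 _).1 (hv1 _).1)
  unfold reg
  rw [Real.iSup_mul_of_nonneg (show 0 ≤ ⨆ j : ℕ, ll ^ j * v (2 ^ j * t) from reg_nonneg hv1 t)]
  refine ciSup_le fun i => ?_
  rw [Real.mul_iSup_of_nonneg (mul_nonneg (pow_pos ll_pos i).le (hu1 _).1)]
  exact ciSup_le fun j => key i j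

end

/-- the integral after one dilation -/
lemma step {F : ℝ → ℝ} (hF2 : ∀ t, F t ≤ 2) :
    ∫⁻ t in Ioo (0 : ℝ) 1, ENNReal.ofReal (F (2 * t) / t) ≤
      (∫⁻ t in Ioo (0 : ℝ) 1, ENNReal.ofReal (F t / t)) + 2 := by
  have h1 : ∫⁻ t in Ioo (0 : ℝ) 1, ENNReal.ofReal (F (2 * t) / t) =
      ∫⁻ t in Ioo (0 : ℝ) 2, ENNReal.ofReal (F t / t) := by
    have himg : (fun x : ℝ => 2 * x) '' Ioo (0 : ℝ) 1 = Ioo (0 : ℝ) 2 := by
      ext y
      constructor
      · rintro ⟨x, hx, rfl⟩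
        exact ⟨by linarith [hx.1], by linarith [hx.2]⟩
      · intro hy
        exact ⟨y / 2, ⟨by linarith [hy.1], by linarith [hy.2]⟩, by ring⟩
    rw [← himg, lintegral_image_eq_lintegral_abs_deriv_mul measurableSet_Ioo
      (f := fun x : ℝ => 2 * x) (f' := fun _ => 2)
      (fun x _ => ((hasDerivAt_id x).const_mul 2 |>.congr_deriv (by ring)).hasDerivWithinAt)
      (fun x _ y _ h => by
        have : (2 : ℝ) * x = 2 * y := h
        linarith)]
    refine setLIntegral_congr_fun measurableSet_Ioo fun t ht => ?_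
    have ht0 : t ≠ 0 := ht.1.ne'
    show ENNReal.ofReal (F (2 * t) / t) = ENNReal.ofReal |2| * ENNReal.ofReal (F (2 * t) / (2 * t))
    rw [← ENNReal.ofReal_mul (abs_nonneg _), abs_of_pos (by norm_num : (0 : ℝ) < 2)]
    congr 1
    field_simp
  rw [h1]
  have h2 : Ioo (0 : ℝ) 2 = Ioo (0 : ℝ) 1 ∪ Ico (1 : ℝ) 2 :=
    (Ioo_union_Ico_eq_Ioo (by norm_num) (by norm_num)).symm
  rw [h2]
  refine (lintegral_union_le _ _ _).trans ?_
  gcongr
  calc ∫⁻ t in Ico (1 : ℝ) 2, ENNReal.ofReal (F t / t)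
      ≤ ∫⁻ _ in Ico (1 : ℝ) 2, 2 := by
        refine setLIntegral_mono measurable_const fun t ht => ?_
        have : F t / t ≤ 2 := by
          rw [div_le_iff₀ (by linarith [ht.1])]
          nlinarith [hF2 t, ht.1]
        calc ENNReal.ofReal (F t / t) ≤ ENNReal.ofReal 2 := ENNReal.ofReal_le_ofReal this
          _ = 2 := by simp
    _ = 2 := by
        rw [setLIntegral_const, Real.volume_Ico]
        norm_num

lemma steps {F : ℝ → ℝ} (hF2 : ∀ t, F t ≤ 2) (m : ℕ) :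
    ∫⁻ t in Ioo (0 : ℝ) 1, ENNReal.ofReal (F (2 ^ m * t) / t) ≤
      (∫⁻ t in Ioo (0 : ℝ) 1, ENNReal.ofReal (F t / t)) + 2 * m := by
  induction m with
  | zero => simp
  | succ m ih =>
    have h1 := step (F := fun t => F (2 ^ m * t)) (fun t => hF2 _)
    have h2 : (fun t : ℝ => ENNReal.ofReal (F (2 ^ (m + 1) * t) / t)) =
        fun t : ℝ => ENNReal.ofReal (F (2 ^ m * (2 * t)) / t) := by
      funext t
      rw [pow_succ, mul_assoc]
    rw [h2]
    refine h1.trans ?_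
    calc (∫⁻ t in Ioo (0 : ℝ) 1, ENNReal.ofReal (F (2 ^ m * t) / t)) + 2
        ≤ ((∫⁻ t in Ioo (0 : ℝ) 1, ENNReal.ofReal (F t / t)) + 2 * m) + 2 := by gcongr
      _ = (∫⁻ t in Ioo (0 : ℝ) 1, ENNReal.ofReal (F t / t)) + 2 * ((m + 1 : ℕ) : ℝ≥0∞) := by
          push_cast
          ring

lemma summ2 : Summable fun m : ℕ => ll ^ m * (2 * m + 1) := by
  have h1 := (summable_pow_mul_geometric_of_norm_lt_one 1
    (by rw [Real.norm_eq_abs, abs_of_pos ll_pos]; exact ll_lt : ‖ll‖ < 1)).mul_left 2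
  have h2 := summable_geometric_of_lt_one ll_pos.le ll_lt
  refine (h1.add h2).congr fun m => ?_
  rw [pow_one]
  ring

/-- **(E1) slowly varying majorants** -/
theorem e1 : Pool.Agent.N290.RI.E1 := by
  set S : ℝ := ∑' m : ℕ, ll ^ m * (2 * m + 1) with hS
  have hS0 : 0 ≤ S := tsum_nonneg fun m => by
    have := (pow_pos ll_pos m).le
    positivity
  refine ⟨2 + S, by linarith, ?_⟩
  intro ω σ hω hσ hω1 hσ1
  refine ⟨reg ω, reg σ, reg_mono hω hω1, reg_mono hσ hσ1,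
    fun t => ⟨reg_nonneg hω1 t, reg_le_one hω1 t⟩,
    fun t => ⟨reg_nonneg hσ1 t, reg_le_one hσ1 t⟩,
    fun t _ _ => ⟨self_le hω1 t, self_le hσ1 t⟩, ?_, ?_⟩
  · intro s t ht hts _
    have hp : 0 ≤ (s / t) ^ (1 / 8 : ℝ) :=
      Real.rpow_nonneg (div_nonneg (ht.le.trans hts) ht.le) _
    constructor
    · refine (reg_slow hω hω1 ht hts).trans ?_
      have := mul_nonneg hp (reg_nonneg hω1 t)
      nlinarith
    · refine (reg_slow hσ hσ1 ht hts).trans ?_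
      have := mul_nonneg hp (reg_nonneg hσ1 t)
      nlinarith
  · set F : ℝ → ℝ := fun t => ω t * (ω t + σ t) with hF
    have hF0 : ∀ t, 0 ≤ F t := fun t =>
      mul_nonneg (hω1 t).1 (add_nonneg (hω1 t).1 (hσ1 t).1)
    have hF2 : ∀ t, F t ≤ 2 := fun t => by
      have h1 := hω1 t
      have h2 := hσ1 t
      show ω t * (ω t + σ t) ≤ 2
      nlinarith
    set I : ℝ≥0∞ := ∫⁻ t in Ioo (0 : ℝ) 1, ENNReal.ofReal (F t / t) with hI
    have hFm : Measurable F := hω.measurable.mul (hω.measurable.add hσ.measurable)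
    have hpt : ∀ t ∈ Ioo (0 : ℝ) 1, ENNReal.ofReal (reg ω t * (reg ω t + reg σ t) / t) ≤
        ∑' m : ℕ, ENNReal.ofReal (ll ^ m) * ENNReal.ofReal (F (2 ^ m * t) / t) := by
      intro t ht
      have h1 := reg_mul_reg hω hω1 hω hω1 ht.1
      have h2 := reg_mul_reg hω hω1 hσ hσ1 ht.1
      have h3 : reg ω t * (reg ω t + reg σ t) ≤ ∑' m : ℕ, ll ^ m * F (2 ^ m * t) := by
        rw [mul_add]
        refine (add_le_add h1 h2).trans ?_
        rw [← (summ hω1 hω1 t).tsum_add (summ hω1 hσ1 t)]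
        apply le_of_eq
        refine tsum_congr fun m => ?_
        show _ = ll ^ m * (ω (2 ^ m * t) * (ω (2 ^ m * t) + σ (2 ^ m * t)))
        ring
      have hsum : Summable fun m : ℕ => ll ^ m * F (2 ^ m * t) := by
        refine ((summ hω1 hω1 t).add (summ hω1 hσ1 t)).congr fun m => ?_
        show _ = ll ^ m * (ω (2 ^ m * t) * (ω (2 ^ m * t) + σ (2 ^ m * t)))
        ring
      have h4 : reg ω t * (reg ω t + reg σ t) / t ≤
          ∑' m : ℕ, ll ^ m * (F (2 ^ m * t) / t) := by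
        have h5 : ∑' m : ℕ, ll ^ m * (F (2 ^ m * t) / t) =
            (∑' m : ℕ, ll ^ m * F (2 ^ m * t)) / t := by
          rw [← tsum_div_const]
          exact tsum_congr fun m => by ring
        rw [h5]
        exact div_le_div_of_nonneg_right h3 ht.1.le
      refine (ENNReal.ofReal_le_ofReal h4).trans ?_
      rw [ENNReal.ofReal_tsum_of_nonneg]
      · refine le_of_eq (tsum_congr fun m => ?_)
        rw [ENNReal.ofReal_mul (pow_pos ll_pos m).le]
      · intro m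
        exact mul_nonneg (pow_pos ll_pos m).le (div_nonneg (hF0 _) ht.1.le)
      · refine (hsum.div_const t).congr fun m => ?_
        ring
    calc ∫⁻ t in Ioo (0 : ℝ) 1, ENNReal.ofReal (reg ω t * (reg ω t + reg σ t) / t)
        ≤ ∫⁻ t in Ioo (0 : ℝ) 1,
            ∑' m : ℕ, ENNReal.ofReal (ll ^ m) * ENNReal.ofReal (F (2 ^ m * t) / t) :=
          setLIntegral_mono' measurableSet_Ioo hpt
      _ = ∑' m : ℕ, ∫⁻ t in Ioo (0 : ℝ) 1,
            ENNReal.ofReal (ll ^ m) * ENNReal.ofReal (F (2 ^ m * t) / t) := by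
          refine lintegral_tsum fun m => ?_
          refine Measurable.aemeasurable ?_
          exact measurable_const.mul (((hFm.comp (measurable_const.mul measurable_id)).div
            measurable_id).ennreal_ofReal)
      _ ≤ ∑' m : ℕ, ENNReal.ofReal (ll ^ m * (2 * m + 1)) * (1 + I) := by
          refine ENNReal.tsum_le_tsum fun m => ?_
          rw [lintegral_const_mul' _ _ ENNReal.ofReal_ne_top,
            ENNReal.ofReal_mul (pow_pos ll_pos m).le, mul_assoc]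
          gcongr
          refine (steps hF2 m).trans ?_
          have h6 : ENNReal.ofReal (2 * (m : ℝ) + 1) = 2 * (m : ℝ≥0∞) + 1 := by
            rw [ENNReal.ofReal_add (by positivity) (by norm_num), ENNReal.ofReal_mul (by norm_num),
              ENNReal.ofReal_natCast, ENNReal.ofReal_one]
            norm_num
          rw [h6]
          calc I + 2 * (m : ℝ≥0∞) ≤ I + 2 * (m : ℝ≥0∞) + (2 * m * I + 1) := le_self_add
            _ = (2 * (m : ℝ≥0∞) + 1) * (1 + I) := by ring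
      _ = ENNReal.ofReal S * (1 + I) := by
          rw [ENNReal.tsum_mul_right, hS, ENNReal.ofReal_tsum_of_nonneg _ summ2]
          intro m
          have := (pow_pos ll_pos m).le
          positivity
      _ ≤ ENNReal.ofReal (2 + S) * (1 + I) := by
          gcongr
          linarith

end Pool.Agent.N717.RI
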